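import Mathlib
import Pool.Agent.Helper42.DB.Goals2

set_option autoImplicit false

/-!
# Packet GLUEA (MP_48f005_an)
-/

namespace Pool.Agent.Helper42.DB.PkGLUEA

open Set Filter Topology

lemma hasDerivAt_norm_sub (c : Crv) (P : ℂ) (u θ : ℝ) (hP : P ≠ c.G u)
    (hθ : P = c.G u + ‖P - c.G u‖ • ee θ) :
    HasDerivAt (fun t => ‖P - c.G t‖) (-(c.R u) * dt (ee θ) (tt u)) u := by
  have h1 : HasDerivAt (fun t => P - c.G t) (-((c.R u : ℝ) • tt u)) u := by
    simpa using (c.der u).const_sub P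
  have hne : P - c.G u ≠ 0 := sub_ne_zero.mpr hP
  have hpos : 0 < ‖P - c.G u‖ := norm_pos_iff.mpr hne
  have h2 := h1.norm_sq
  have h3 := h2.sqrt (by positivity)
  have h4 : (fun t => Real.sqrt (‖P - c.G t‖ ^ 2)) = fun t => ‖P - c.G t‖ := by
    funext t; exact Real.sqrt_sq (norm_nonneg _)
  have h5 : HasDerivAt (fun t => ‖P - c.G t‖)
      (2 * inner ℝ (P - c.G u) (-((c.R u : ℝ) • tt u)) / (2 * Real.sqrt (‖P - c.G u‖ ^ 2))) u := by
    have h6 := h3
    simp only [h4] at h6
    exact h6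
  convert h5 using 1
  rw [Real.sqrt_sq (norm_nonneg _), ← dt_eq_inner]
  have h7 : P - c.G u = ‖P - c.G u‖ • ee θ := by
    rw [eq_comm, ← sub_eq_zero] at hθ
    rw [← sub_eq_zero, ← neg_eq_zero, ← hθ]; ring
  have h8 : dt (P - c.G u) (-((c.R u : ℝ) • tt u)) =
      ‖P - c.G u‖ * (-(c.R u) * dt (ee θ) (tt u)) := by
    conv_lhs => rw [h7]
    rw [dt_smul_left, dt_neg_right, dt_smul_right]; ring
  rw [h8]
  field_simp

lemma term_cont (S : Sys) (i : S.ι) (I : Set ℝ) (L : ℝ → ℝ → ℝ) (A B : ℝ → ℝ → ℝ)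
    (hlow : ∀ x ∈ I, ∀ y ∈ I, ∀ x' ∈ I, ∀ y' ∈ I,
      L x y - dt (ee (x + A x y)) (S.g i x' - S.g i x)
        - dt (ee (y - B x y)) (S.g i y' - S.g i y) ≤ L x' y') (p q : ℕ) :
    ContinuousOn (fun x : ℕ → ℝ => L (x p) (x q)) (Set.pi univ (fun _ : ℕ => I)) := by
  have key : ∀ x ∈ I, ∀ y ∈ I, ∀ x' ∈ I, ∀ y' ∈ I,
      |L x' y' - L x y| ≤ ‖S.g i x' - S.g i x‖ + ‖S.g i y' - S.g i y‖ := by
    intro x hx y hy x' hx' y' hy'
    have h1 := hlow x hx y hy x' hx' y' hy'
    have h2 := hlow x' hx' y' hy' x hx y hy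
    have a1 := dt_le (ee (x + A x y)) (S.g i x' - S.g i x)
    have a2 := dt_le (ee (y - B x y)) (S.g i y' - S.g i y)
    have a3 := dt_le (ee (x' + A x' y')) (S.g i x - S.g i x')
    have a4 := dt_le (ee (y' - B x' y')) (S.g i y - S.g i y')
    rw [norm_ee, one_mul] at a1 a2 a3 a4
    rw [norm_sub_rev] at a3 a4
    rw [abs_le]; constructor <;> linarith
  intro x0 hx0
  have hx0' : ∀ k, x0 k ∈ I := fun k => hx0 k (mem_univ k)
  have hlim : Tendsto (fun x : ℕ → ℝ => ‖S.g i (x p) - S.g i (x0 p)‖ +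
      ‖S.g i (x q) - S.g i (x0 q)‖) (𝓝[Set.pi univ (fun _ : ℕ => I)] x0) (𝓝 0) := by
    have hc : Continuous (fun x : ℕ → ℝ => ‖S.g i (x p) - S.g i (x0 p)‖ +
      ‖S.g i (x q) - S.g i (x0 q)‖) := by
      have hg : Continuous (S.g i) := (S.crv i).continuous
      have h1 : Continuous fun x : ℕ → ℝ => S.g i (x p) := hg.comp (continuous_apply p)
      have h2 : Continuous fun x : ℕ → ℝ => S.g i (x q) := hg.comp (continuous_apply q)
      exact ((h1.sub continuous_const).norm).add ((h2.sub continuous_const).norm)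
    have h := hc.tendsto x0
    simp only [sub_self, norm_zero, add_zero] at h
    exact h.mono_left nhdsWithin_le_nhds
  have h2 : Tendsto (fun x : ℕ → ℝ => L (x p) (x q) - L (x0 p) (x0 q))
      (𝓝[Set.pi univ (fun _ : ℕ => I)] x0) (𝓝 0) := by
    refine squeeze_zero_norm' ?_ hlim
    filter_upwards [self_mem_nhdsWithin] with x hx
    exact key _ (hx0' p) _ (hx0' q) _ (hx p (mem_univ p)) _ (hx q (mem_univ q))
  have h3 := h2.add_const (L (x0 p) (x0 q))
  simp only [sub_add_cancel, zero_add] at h3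
  exact h3

theorem thm (S : Sys) : G_ARC S → G_GLUEA S := by
  intro hARC i uc φc r ω m Λ α β hm hr hφ hI hω0 hω hang hlow hP hP' hdirL hdirR
  set I : Set ℝ := Icc (uc - r) (uc + r) with hIdef
  set g := S.g i with hg
  have hucI : uc ∈ I := ⟨by linarith, by linarith⟩
  have hIab : ∀ t ∈ I, t ∈ Icc (S.a i) (S.b i) := fun t ht => Ioo_subset_Icc_self (hI ht)
  have hcos : 0 < Real.cos φc := Real.cos_pos_of_mem_Ioo
    ⟨by have := (abs_lt.mp hφ).1; linarith, (abs_lt.mp hφ).2⟩
  obtain ⟨hκ, hr1, hd, hconv⟩ := hARC i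
  -- minimiser
  have hcomp : IsCompact (Set.pi univ (fun _ : ℕ => I)) := isCompact_univ_pi fun _ => isCompact_Icc
  have hne : (Set.pi univ (fun _ : ℕ => I)).Nonempty := ⟨fun _ => uc, fun _ _ => hucI⟩
  have hcont : ContinuousOn (fun x : ℕ → ℝ => ∑ j ∈ Finset.range m, Λ j (x j) (x ((j + 1) % m)))
      (Set.pi univ (fun _ : ℕ => I)) := by
    apply continuousOn_finsetSum
    intro j hj
    exact term_cont S i I (Λ j) (α j) (β j) (hlow j (Finset.mem_range.mp hj)) j ((j + 1) % m)
  obtain ⟨x, hxI, hmin⟩ := hcomp.exists_isMinOn hne hcont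
  have hx : ∀ k, x k ∈ I := fun k => hxI k (mem_univ k)
  refine ⟨x, fun j _ => hx j, ?_⟩
  intro j' hj'
  set j := (j' + 1) % m with hjdef
  have hjm : j < m := Nat.mod_lt _ (by omega)
  have hj2 : (j + 1) % m = (j' + 2) % m := by
    rw [hjdef, Nat.mod_add_mod]
  have hjj' : j ≠ j' := by
    rw [hjdef]
    intro h
    rcases Nat.lt_or_ge (j' + 1) m with h1 | h1
    · rw [Nat.mod_eq_of_lt h1] at h; omega
    · have h2 : j' + 1 = m := by omega
      rw [h2, Nat.mod_self] at h; omega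
  have hj1 : (j + 1) % m ≠ j := by
    intro h
    rcases Nat.lt_or_ge (j + 1) m with h1 | h1
    · rw [Nat.mod_eq_of_lt h1] at h; omega
    · have h2 : j + 1 = m := by omega
      rw [h2, Nat.mod_self] at h; omega
  have hinj : ∀ k < m, (k + 1) % m = j → k = j' := by
    intro k hk h
    rw [hjdef] at h
    rcases Nat.lt_or_ge (k + 1) m with h1 | h1 <;> rcases Nat.lt_or_ge (j' + 1) m with h2 | h2
    · rw [Nat.mod_eq_of_lt h1, Nat.mod_eq_of_lt h2] at h; omega
    · have h3 : j' + 1 = m := by omega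
      rw [Nat.mod_eq_of_lt h1, h3, Nat.mod_self] at h; omega
    · have h3 : k + 1 = m := by omega
      rw [Nat.mod_eq_of_lt h2, h3, Nat.mod_self] at h; omega
    · omega
  rw [← hj2]
  set X := x j' with hX
  set Y := x ((j + 1) % m) with hY
  have hXI : X ∈ I := hx j'
  have hYI : Y ∈ I := hx _
  have hJ : ∀ t ∈ I, Λ j' X (x j) + Λ j (x j) Y ≤ Λ j' X t + Λ j t Y := by
    intro t ht
    have hmem : Function.update x j t ∈ Set.pi univ (fun _ : ℕ => I) := by
      intro k _
      by_cases hk : k = j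
      · subst hk; simpa using ht
      · rw [Function.update_of_ne hk]; exact hx k
    have h1 := isMinOn_iff.mp hmin _ hmem
    have h2 : ∑ k ∈ Finset.range m, (Λ k (Function.update x j t k)
        (Function.update x j t ((k + 1) % m)) - Λ k (x k) (x ((k + 1) % m))) =
        ∑ k ∈ ({j', j} : Finset ℕ), (Λ k (Function.update x j t k)
        (Function.update x j t ((k + 1) % m)) - Λ k (x k) (x ((k + 1) % m))) := by
      symm
      apply Finset.sum_subset
      · intro k hk
        simp only [Finset.mem_insert, Finset.mem_singleton] at hk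
        rcases hk with rfl | rfl
        · exact Finset.mem_range.mpr hj'
        · exact Finset.mem_range.mpr hjm
      · intro k hk hk2
        simp only [Finset.mem_insert, Finset.mem_singleton, not_or] at hk2
        rw [Function.update_of_ne hk2.2, Function.update_of_ne, sub_self]
        intro h
        exact hk2.1 (hinj k (Finset.mem_range.mp hk) h)
    rw [Finset.sum_sub_distrib, Finset.sum_pair hjj'.symm] at h2
    rw [← hjdef, Function.update_self, Function.update_of_ne hjj'.symm,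
      Function.update_of_ne hj1] at h2
    linarith
  -- interior
  have hfar : ∀ t ∈ I, r ≤ |t - uc| → Λ j' X uc + Λ j uc Y < Λ j' X t + Λ j t Y := by
    intro t ht htr
    have h1 := hlow j' hj' X hXI uc hucI X hXI t ht
    have h2 := hlow j hjm uc hucI Y hYI t ht Y hYI
    rw [sub_self, dt_zero_right] at h1 h2
    have e1 := hdirL j' hj' X hXI
    have e2 := hdirR j hjm Y hYI
    set v := g t - g uc with hv
    have h3 : dt (ee (uc - β j' X uc)) v ≤ dt (ee (uc - φc)) v + ω * ‖v‖ := by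
      have h := dt_le (ee (uc - β j' X uc) - ee (uc - φc)) v
      rw [dt_sub_left] at h
      have h' := mul_le_mul_of_nonneg_right e1 (norm_nonneg v)
      linarith
    have h4 : dt (ee (uc + α j uc Y)) v ≤ dt (ee (uc + φc)) v + ω * ‖v‖ := by
      have h := dt_le (ee (uc + α j uc Y) - ee (uc + φc)) v
      rw [dt_sub_left] at h
      have h' := mul_le_mul_of_nonneg_right e2 (norm_nonneg v)
      linarith
    have h5 : dt (ee (uc - φc)) v + dt (ee (uc + φc)) v = 2 * Real.cos φc * dt (ee uc) v := by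
      simp only [dt, ee_re, ee_im, Real.cos_sub, Real.cos_add, Real.sin_sub, Real.sin_add]; ring
    have h6 : S.κ * ‖g uc - g t‖ ^ 2 ≤ dt (ee uc) (g uc - g t) :=
      hconv uc (hIab uc hucI) (g t) (subset_convexHull ℝ _ (mem_image_of_mem _ (hIab t ht)))
    have h7 : dt (ee uc) (g uc - g t) = - dt (ee uc) v := by
      rw [← dt_neg_right, hv, neg_sub]
    have h8 : ‖g uc - g t‖ = ‖v‖ := norm_sub_rev _ _
    rw [h7, h8] at h6
    have h9 : S.r0 / 2 * r ≤ ‖v‖ := by
      have h := (hd t (hIab t ht) uc (hIab uc hucI)).1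
      exact le_trans (mul_le_mul_of_nonneg_left htr (by have := S.r0_pos; linarith)) h
    have hvpos : 0 < ‖v‖ := lt_of_lt_of_le (mul_pos (by have := S.r0_pos; linarith) hr) h9
    have h10 : Real.cos φc * (S.κ * ‖v‖ ^ 2) ≤ Real.cos φc * (-dt (ee uc) v) :=
      mul_le_mul_of_nonneg_left h6 hcos.le
    have h11 : ω < Real.cos φc * S.κ * ‖v‖ := by
      have h := mul_le_mul_of_nonneg_left h9 (mul_pos hcos hκ).le
      have : Real.cos φc * S.κ * (S.r0 / 2 * r) = Real.cos φc * S.κ * S.r0 * r / 2 := by ring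
      linarith
    have h12 : ω * ‖v‖ < Real.cos φc * S.κ * ‖v‖ * ‖v‖ := mul_lt_mul_of_pos_right h11 hvpos
    nlinarith
  have hxj : x j ∈ I := hx j
  have hint : x j ∈ Ioo (uc - r) (uc + r) := by
    have hlt : |x j - uc| < r := by
      by_contra hcon
      push Not at hcon
      have h1 := hfar (x j) hxj hcon
      have h2 := hJ uc hucI
      linarith
    rw [abs_lt] at hlt
    exact ⟨by linarith, by linarith⟩
  -- stationarity
  obtain ⟨P, hPne, hPe, hPle⟩ := hP j hjm (x j) hxj Y hYI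
  obtain ⟨P', hPne', hPe', hPle'⟩ := hP' j' hj' X hXI (x j) hxj
  have hD1 := hasDerivAt_norm_sub (S.crv i) P (x j) _ hPne hPe
  have hD2 := hasDerivAt_norm_sub (S.crv i) P' (x j) _ hPne' hPe'
  have hD := hD2.add hD1
  have hlm : IsLocalMin ((fun t => ‖P' - (S.crv i).G t‖) + fun t => ‖P - (S.crv i).G t‖) (x j) := by
    have hnh : Ioo (uc - r) (uc + r) ∈ 𝓝 (x j) := Ioo_mem_nhds hint.1 hint.2
    filter_upwards [hnh] with t ht
    have htI : t ∈ I := Ioo_subset_Icc_self ht
    have h1 := hJ t htI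
    have h2 := hPle t htI
    have h3 := hPle' t htI
    have e1 : g = (S.crv i).G := rfl
    rw [e1] at h2 h3
    show ‖P' - (S.crv i).G (x j)‖ + ‖P - (S.crv i).G (x j)‖ ≤
      ‖P' - (S.crv i).G t‖ + ‖P - (S.crv i).G t‖
    linarith
  have h0 := hlm.hasDerivAt_eq_zero hD
  rw [dt_ee_tt, dt_ee_tt] at h0
  have e1 : x j - (x j - β j' X (x j)) = β j' X (x j) := by ring
  have e2 : x j - (x j + α j (x j) Y) = -α j (x j) Y := by ring
  rw [e1, e2, Real.sin_neg] at h0
  have hR : 0 < (S.crv i).R (x j) := lt_of_lt_of_le S.r0_pos (S.le_R i _)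
  have h1 : (S.crv i).R (x j) * (Real.sin (β j' X (x j)) - Real.sin (α j (x j) Y)) = 0 := by
    linarith
  have h2 : Real.sin (β j' X (x j)) = Real.sin (α j (x j) Y) := by
    rcases mul_eq_zero.mp h1 with h | h
    · exact absurd h hR.ne'
    · linarith
  have ha := (hang j hjm (x j) hxj Y hYI).1
  have hb := (hang j' hj' X hXI (x j) hxj).2
  rw [abs_lt] at ha hb
  exact Real.injOn_sin ⟨by linarith, by linarith⟩ ⟨by linarith, by linarith⟩ h2

end Pool.Agent.Helper42.DB.PkGLUEA
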