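import Mathlib
import Pool.Agent.Helper42.DB.Goals2

set_option autoImplicit false

/-!
# Packet LOOPLP (MP_48f005_an)
-/

namespace Pool.Agent.Helper42.DB.PkLOOPLP

open Set Filter Topology

lemma norm_ee_sub_sq (a b : ℝ) : ‖ee a - ee b‖ ^ 2 = 2 * (1 - Real.cos (a - b)) := by
  rw [← dt_self, dt_sub_left, dt_sub_right, dt_sub_right, dt_ee_ee, dt_ee_ee, dt_ee_ee, dt_ee_ee,
    sub_self, sub_self, Real.cos_zero, ← Real.cos_neg (b - a), neg_sub]
  ring

lemma norm_ee_sub (a b : ℝ) : ‖ee a - ee b‖ ≤ |a - b| := by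
  apply le_of_sq_le_sq _ (abs_nonneg _)
  rw [norm_ee_sub_sq, sq_abs]
  have := Real.one_sub_sq_div_two_le_cos (x := a - b)
  linarith

lemma dist_pos {S : Sys} (hARC : G_ARC S) {x y : St S} (hx : x.Ok) (hy : y.Ok) (h : x.i = y.i) :
    ‖x.pos - y.pos‖ ≤ S.r1 * |x.u - y.u| := by
  obtain ⟨i, u, φ⟩ := x
  obtain ⟨j, v, ψ⟩ := y
  simp only at h
  subst h
  exact ((hARC i).2.2.1 u (Ioo_subset_Icc_self hx.1) v (Ioo_subset_Icc_self hy.1)).2

lemma cos_ge {δ φ : ℝ} (hδ0 : 0 ≤ δ) (h : |φ| ≤ Real.pi / 2 - δ) : Real.sin δ ≤ Real.cos φ := by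
  rw [← Real.cos_abs φ, ← Real.cos_pi_div_two_sub]
  apply Real.cos_le_cos_of_nonneg_of_le_pi (abs_nonneg _) _ h
  linarith [Real.pi_pos]

lemma core (S : Sys) (hARC : G_ARC S) (hTHIN : G_THIN S) (δ τF r ξ E : ℝ) (M : ℕ)
    (hδ : 0 < δ) (hδ2 : δ < Real.pi / 2) (hτF : 0 < τF)
    (hFL : ∀ x y : St S, Fl x y →
      ((S.a x.i + δ ≤ x.u ∧ x.u ≤ S.b x.i - δ) ∨ (S.a y.i + δ ≤ y.u ∧ y.u ≤ S.b y.i - δ)) →
      τF ≤ len x y)
    (hE : 0 < E) (hξE : 2 * ξ ≤ E / 2)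
    (h1 : 4 * (S.r1 * ξ) ≤ τF * E ^ 2 / 8)
    (h2 : 16 * (S.r1 * (2 * r)) ≤ (τF * E ^ 2 / 8) ^ 2 * S.κ * M * Real.sin δ)
    (n : ℕ) (w : ℕ → S.ι) (z z' : ℕ → St S) (F : Finset ℕ) (uc φc : ℝ) (hn : 0 < n)
    (hz : Cyl n w z) (hz' : Cyl n w z')
    (hF : ∀ k ∈ F, 0 < k ∧ k < n ∧ Real.sin δ ≤ Real.cos (z k).φ) (hM : 1 ≤ M)
    (hMF : M ≤ F.card)
    (hu : S.a (z n).i + δ ≤ (z n).u ∧ (z n).u ≤ S.b (z n).i - δ)
    (hzu : |(z n).u - uc| ≤ ξ) (hzφ : |(z n).φ - φc| ≤ ξ) (hz'u : (z' n).u = uc)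
    (h0 : |(z' 0).u - (z 0).u| ≤ 2 * r) : ‖ee (z' n).bk - ee (uc - φc)‖ ≤ E := by
  have hi : (z' n).i = (z n).i := by rw [hz.2 n le_rfl, hz'.2 n le_rfl]
  have hi0 : (z' 0).i = (z 0).i := by rw [hz.2 0 (Nat.zero_le _), hz'.2 0 (Nat.zero_le _)]
  obtain ⟨hκ, hr1, _, _⟩ := hARC (z n).i
  have hsin : 0 < Real.sin δ := Real.sin_pos_of_pos_of_lt_pi hδ (by linarith [Real.pi_pos])
  set e : ℝ := (len (z (n - 1)) (z n) + len (z' (n - 1)) (z' n)) *
      (1 - Real.cos ((z' (n - 1)).th - (z (n - 1)).th)) with he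
  set e0 : ℝ := τF * E ^ 2 / 8 with he0
  have he0pos : 0 < e0 := by positivity
  have hle : e ≤ e0 := by
    rcases hTHIN n w z z' δ F hn hδ hδ2 hz hz' hF with h | h
    · have h3 := dist_pos hARC (hz'.1.1 n le_rfl) (hz.1.1 n le_rfl) hi
      rw [hz'u, abs_sub_comm] at h3
      have h4 := mul_le_mul_of_nonneg_left hzu hr1.le
      linarith
    · by_contra hc
      push Not at hc
      have h3 := dist_pos hARC (hz'.1.1 0 (Nat.zero_le _)) (hz.1.1 0 (Nat.zero_le _)) hi0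
      have h4 := mul_le_mul_of_nonneg_left h0 hr1.le
      have h5 : e0 ^ 2 < e ^ 2 := pow_lt_pow_left₀ hc he0pos.le (by norm_num)
      have hMpos : (0 : ℝ) < M := by exact_mod_cast hM
      have hMF' : (M : ℝ) ≤ F.card := by exact_mod_cast hMF
      have h6 : e0 ^ 2 * S.κ * M * Real.sin δ < e ^ 2 * S.κ * M * Real.sin δ := by
        apply mul_lt_mul_of_pos_right _ hsin
        apply mul_lt_mul_of_pos_right _ hMpos
        exact mul_lt_mul_of_pos_right h5 hκ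
      have h7 : e ^ 2 * S.κ * M * Real.sin δ ≤ e ^ 2 * S.κ * F.card * Real.sin δ := by
        apply mul_le_mul_of_nonneg_right _ hsin.le
        apply mul_le_mul_of_nonneg_left hMF'
        positivity
      linarith
  have hn1 : n - 1 + 1 = n := by omega
  have hfl := hz.1.2 (n - 1) (by omega)
  have hfl' := hz'.1.2 (n - 1) (by omega)
  rw [hn1] at hfl hfl'
  have hlen : τF ≤ len (z (n - 1)) (z n) := hFL _ _ hfl (Or.inr hu)
  have hlen' : 0 ≤ len (z' (n - 1)) (z' n) := norm_nonneg _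
  have hcos : 0 ≤ 1 - Real.cos ((z' (n - 1)).th - (z (n - 1)).th) := by
    linarith [Real.cos_le_one ((z' (n - 1)).th - (z (n - 1)).th)]
  have h3 : τF * (1 - Real.cos ((z' (n - 1)).th - (z (n - 1)).th)) ≤ e0 := by
    refine le_trans (mul_le_mul_of_nonneg_right ?_ hcos) hle
    linarith
  have h4 : ‖ee (z' (n - 1)).th - ee (z (n - 1)).th‖ ≤ E / 2 := by
    apply le_of_sq_le_sq _ (by linarith)
    rw [norm_ee_sub_sq]
    have h5 : τF * (2 * (1 - Real.cos ((z' (n - 1)).th - (z (n - 1)).th))) ≤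
        τF * (E / 2) ^ 2 := by
      rw [he0] at h3; linarith
    exact le_of_mul_le_mul_left h5 hτF
  have h5 : ee (z' n).bk - ee (z n).bk = -(ee (z' (n - 1)).th - ee (z (n - 1)).th) := by
    rw [hfl.2.2.1, hfl'.2.2.1]; ring
  have h6 : ‖ee (z' n).bk - ee (z n).bk‖ ≤ E / 2 := by rw [h5, norm_neg]; exact h4
  have h7 : ‖ee (z n).bk - ee (uc - φc)‖ ≤ 2 * ξ := by
    refine (norm_ee_sub _ _).trans ?_
    have e1 : (z n).bk - (uc - φc) = ((z n).u - uc) - ((z n).φ - φc) := by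
      simp only [St.bk]; ring
    rw [e1]
    refine (abs_sub _ _).trans ?_
    linarith
  calc ‖ee (z' n).bk - ee (uc - φc)‖
      = ‖(ee (z' n).bk - ee (z n).bk) + (ee (z n).bk - ee (uc - φc))‖ := by congr 1; ring
    _ ≤ ‖ee (z' n).bk - ee (z n).bk‖ + ‖ee (z n).bk - ee (uc - φc)‖ := norm_add_le _ _
    _ ≤ E := by linarith

theorem thm (S : Sys) : G_ARC S → G_FLEN S → G_THIN S → G_GOODFULL S → G_LOOPLP S := by
  classical
  intro hARC hFLEN hTHIN hGF τ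
  rcases isEmpty_or_nonempty S.ι with hemp | ⟨⟨i0⟩⟩
  · exact ⟨1, 1, 0, one_pos, one_pos, fun N W z t ℓ i => (hemp.false i).elim⟩
  obtain ⟨hκ, hr1, _, _⟩ := hARC i0
  obtain ⟨δ', r', hδ', hr', hgf⟩ := hGF τ
  set δ : ℝ := min δ' 1 with hδdef
  have hδ : 0 < δ := lt_min hδ' one_pos
  have hδδ' : δ ≤ δ' := min_le_left _ _
  have hδ1 : δ ≤ 1 := min_le_right _ _
  have hpi : 3 < Real.pi := Real.pi_gt_three
  have hδ2 : δ < Real.pi / 2 := by linarith
  obtain ⟨τF, hτF, hFL⟩ := hFLEN δ hδ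
  set r : ℝ := min r' δ / 4 with hrdef
  have hr : 0 < r := by have : 0 < min r' δ := lt_min hr' hδ; positivity
  have hrr' : 4 * r ≤ r' := by have := min_le_left r' δ; linarith
  have hrδ : 4 * r ≤ δ := by have := min_le_right r' δ; linarith
  set c0 : ℝ := Real.sin (3 * δ / 4) with hc0def
  have hc0 : 0 < c0 := Real.sin_pos_of_pos_of_lt_pi (by linarith) (by linarith)
  set E : ℝ := c0 * S.κ * S.r0 * r / 4 with hEdef
  have hr0 := S.r0_pos
  have hE : 0 < E := by positivity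
  set ξ : ℝ := min (min r (E / 4)) (τF * E ^ 2 / 8 / (4 * S.r1)) with hξdef
  have hξ : 0 < ξ := by
    apply lt_min (lt_min hr (by linarith)); positivity
  have hξr : ξ ≤ r := (min_le_left _ _).trans (min_le_left _ _)
  have hξE : 2 * ξ ≤ E / 2 := by
    have : ξ ≤ E / 4 := (min_le_left _ _).trans (min_le_right _ _)
    linarith
  have h1 : 4 * (S.r1 * ξ) ≤ τF * E ^ 2 / 8 := by
    have h : ξ ≤ τF * E ^ 2 / 8 / (4 * S.r1) := min_le_right _ _
    rw [le_div_iff₀ (by positivity)] at h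
    linarith
  have hsin : 0 < Real.sin δ := Real.sin_pos_of_pos_of_lt_pi hδ (by linarith)
  obtain ⟨M0, hM0⟩ := exists_nat_ge
    (16 * (S.r1 * (2 * r)) / ((τF * E ^ 2 / 8) ^ 2 * S.κ * Real.sin δ))
  set M : ℕ := M0 + 1 with hMdef
  have h2 : 16 * (S.r1 * (2 * r)) ≤ (τF * E ^ 2 / 8) ^ 2 * S.κ * M * Real.sin δ := by
    rw [div_le_iff₀ (by positivity)] at hM0
    have h3 : (M : ℝ) = M0 + 1 := by rw [hMdef]; push_cast; ring
    rw [h3]
    have h4 : 0 < (τF * E ^ 2 / 8) ^ 2 * S.κ * Real.sin δ := by positivity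
    nlinarith
  refine ⟨r, ξ, M, hr, hξ, ?_⟩
  intro N W z t ℓ i uc φc hz hg hg' hi hi' hu hφ hu' hφ' hcard hℓ
  obtain ⟨hnear, hfull⟩ := hgf N W z hz
  -- bounds at good times
  have hgood : ∀ s, Good S τ N W s → (S.a (z s).i + δ ≤ (z s).u ∧ (z s).u ≤ S.b (z s).i - δ) ∧
      |(z s).φ| ≤ Real.pi / 2 - δ := by
    intro s hs
    have h := (hnear s hs).2
    simp only [Near, not_or, not_lt] at h
    obtain ⟨ha, hb, _, _, hc, _⟩ := h
    exact ⟨⟨by linarith, by linarith⟩, by linarith⟩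
  have hgt := hgood t hg
  have hgt' := hgood (t + ℓ) hg'
  have htN : t + ℓ ≤ N := by have := hg'.2.1; omega
  have habsφ : |φc| ≤ Real.pi / 2 - 3 * δ / 4 := by
    have e1 : φc = (z t).φ - ((z t).φ - φc) := by ring
    rw [e1]
    refine (abs_sub _ _).trans ?_
    linarith [hgt.2]
  have hφc : |φc| < Real.pi / 2 := by linarith
  have hcosφ : c0 ≤ Real.cos φc := cos_ge (by linarith) habsφ
  have hEω : E ≤ Real.cos φc * S.κ * S.r0 * r / 4 := by
    rw [hEdef]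
    have h3 : 0 < S.κ * S.r0 * r / 4 := by positivity
    have h4 := mul_le_mul_of_nonneg_right hcosφ h3.le
    have e1 : c0 * S.κ * S.r0 * r / 4 = c0 * (S.κ * S.r0 * r / 4) := by ring
    have e2 : Real.cos φc * S.κ * S.r0 * r / 4 = Real.cos φc * (S.κ * S.r0 * r / 4) := by ring
    rw [e1, e2]; exact h4
  have hsub : Icc (uc - r) (uc + r) ⊆ Ioo (S.a i) (S.b i) := by
    intro x hx
    have h3 := hgt.1
    rw [hi] at h3
    rw [abs_le] at hu
    exact ⟨by linarith [hx.1, hu.2, h3.1], by linarith [hx.2, hu.1, h3.2]⟩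
  refine ⟨hφc, hsub, ?_⟩
  have hzs : Cyl ℓ (sh t W) (fun k => z (t + k)) := hz.shift htN
  -- the finset of good times
  set F : Finset ℕ := (Finset.Ioo 0 ℓ).filter (fun k => Good S τ N W (t + k)) with hFdef
  have hFcard : M ≤ F.card := by
    refine hcard.trans ?_
    have e1 : {s : ℕ | t < s ∧ s < t + ℓ ∧ Good S τ N W s} ⊆ (F.image (fun k => t + k) : Finset ℕ) := by
      rintro s ⟨hs1, hs2, hs3⟩
      rw [Finset.mem_coe, Finset.mem_image]
      refine ⟨s - t, ?_, by omega⟩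
      rw [hFdef, Finset.mem_filter, Finset.mem_Ioo]
      refine ⟨⟨by omega, by omega⟩, ?_⟩
      have : t + (s - t) = s := by omega
      rw [this]; exact hs3
    refine (Set.ncard_le_ncard e1 (Finset.finite_toSet _)).trans ?_
    rw [Set.ncard_coe_finset]
    exact Finset.card_image_le
  have hF : ∀ k ∈ F, 0 < k ∧ k < ℓ ∧ Real.sin δ ≤ Real.cos (z (t + k)).φ := by
    intro k hk
    rw [hFdef, Finset.mem_filter, Finset.mem_Ioo] at hk
    exact ⟨hk.1.1, hk.1.2, cos_ge hδ.le (hgood _ hk.2).2⟩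
  have hM1 : 1 ≤ M := by omega
  refine ⟨hℓ, ?_, ?_, ?_, ?_, ?_⟩
  · have h3 := hz.2 t (by omega)
    simp only [sh, add_zero]; rw [← h3]; exact hi
  · have h3 := hz.2 (t + ℓ) htN
    simp only [sh]; rw [← h3]; exact hi'
  · intro x hx y hy
    have hx' : |x - (z t).u| ≤ r' := by
      rw [abs_le] at hu ⊢
      exact ⟨by linarith [hx.1, hx.2, hu.1, hu.2], by linarith [hx.1, hx.2, hu.1, hu.2]⟩
    have hy' : |y - (z (t + ℓ)).u| ≤ r' := by
      rw [abs_le] at hu' ⊢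
      exact ⟨by linarith [hy.1, hy.2, hu'.1, hu'.2], by linarith [hy.1, hy.2, hu'.1, hu'.2]⟩
    obtain ⟨m, hm⟩ := hfull t (t + ℓ) hg hg' (by omega) x y hx' hy'
    have e1 : t + ℓ - t = ℓ := by omega
    rw [e1] at hm
    exact ⟨m, hm⟩
  · intro m hm hm0 hmℓ
    refine le_trans ?_ hEω
    refine core S hARC hTHIN δ τF r ξ E M hδ hδ2 hτF hFL hE hξE h1 h2 ℓ (sh t W)
      (fun k => z (t + k)) m F uc φc hℓ hzs hm hF hM1 hFcard hgt'.1 hu' hφ' hmℓ ?_
    rw [abs_le] at hu ⊢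
    simp only [add_zero]
    exact ⟨by linarith [hm0.1, hm0.2, hu.1, hu.2], by linarith [hm0.1, hm0.2, hu.1, hu.2]⟩
  · intro m hm hm0 hmℓ
    refine le_trans ?_ hEω
    have hzr := hzs.rev
    have hmr := hm.rev
    have hFr : ∀ k ∈ F.image (fun k => ℓ - k), 0 < k ∧ k < ℓ ∧
        Real.sin δ ≤ Real.cos ((fun k => ((fun k => z (t + k)) (ℓ - k)).rev) k).φ := by
      intro k hk
      rw [Finset.mem_image] at hk
      obtain ⟨k', hk', rfl⟩ := hk
      have h3 := hF k' hk'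
      refine ⟨by omega, by omega, ?_⟩
      have e1 : ℓ - (ℓ - k') = k' := by omega
      simp only [e1, St.rev_φ, Real.cos_neg]
      exact h3.2.2
    have hcr : M ≤ (F.image (fun k => ℓ - k)).card := by
      rw [Finset.card_image_of_injOn]
      · exact hFcard
      · intro a ha b hb hab
        have h3 := hF a ha
        have h4 := hF b hb
        simp only at hab
        omega
    have h3 := core S hARC hTHIN δ τF r ξ E M hδ hδ2 hτF hFL hE hξE h1 h2 ℓ _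
      (fun k => ((fun k => z (t + k)) (ℓ - k)).rev) (fun k => (m (ℓ - k)).rev)
      (F.image (fun k => ℓ - k)) uc (-φc) hℓ hzr hmr hFr hM1 hcr
      (by simpa using hgt.1) (by simpa using hu)
      (by
        have e1 : |-(z t).φ + φc| = |(z t).φ - φc| := by
          rw [← abs_neg]; congr 1; ring
        simpa [e1] using hφ)
      (by simpa using hm0)
      (by
        simp only [Nat.sub_zero, St.rev_u]
        rw [abs_le] at hu' ⊢
        exact ⟨by linarith [hmℓ.1, hmℓ.2, hu'.1, hu'.2], by linarith [hmℓ.1, hmℓ.2, hu'.1, hu'.2]⟩)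
    simpa using h3

end Pool.Agent.Helper42.DB.PkLOOPLP
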