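import Mathlib
import Pool.Agent.Helper42.DB.Goals2

set_option autoImplicit false

/-!
# Packet PIG (MP_48f005_an)
-/

namespace Pool.Agent.Helper42.DB.PkPIG

open Set Filter Topology

lemma growth (c C0 : ℝ) (hc : 0 < c) (p N0 : ℕ) :
    ∃ N : ℕ, N0 ≤ N ∧ C0 * ((N : ℝ) + 1) ^ p < Real.exp (c * N) := by
  have hr : |Real.exp (-c)| < 1 := by
    rw [abs_of_pos (Real.exp_pos _), Real.exp_lt_one_iff]; linarith
  have h1 := tendsto_pow_const_mul_const_pow_of_abs_lt_one p hr
  have h2 := h1.const_mul C0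
  rw [mul_zero] at h2
  have h3 : ∀ᶠ n : ℕ in atTop, C0 * ((n : ℝ) ^ p * Real.exp (-c) ^ n) < Real.exp (-c) :=
    h2.eventually_lt_const (Real.exp_pos _)
  obtain ⟨n, hn, hnN⟩ := (h3.and (eventually_ge_atTop (N0 + 1))).exists
  refine ⟨n - 1, by omega, ?_⟩
  obtain ⟨N, rfl⟩ : ∃ N, n = N + 1 := ⟨n - 1, by omega⟩
  have e1 : N + 1 - 1 = N := by omega
  rw [e1]
  push_cast at hn
  rw [← Real.exp_nat_mul] at hn
  have e2 : Real.exp (((N + 1 : ℕ) : ℝ) * -c) = Real.exp (-(c * N)) * Real.exp (-c) := by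
    rw [← Real.exp_add]; congr 1; push_cast; ring
  rw [e2, ← mul_assoc, ← mul_assoc] at hn
  have h4 : C0 * ((N : ℝ) + 1) ^ p * Real.exp (-(c * N)) < 1 := by
    have h5 := Real.exp_pos (-c)
    by_contra hcon
    push Not at hcon
    have := mul_le_mul_of_nonneg_right hcon h5.le
    linarith
  rw [Real.exp_neg] at h4
  have h5 := Real.exp_pos (c * N)
  rwa [← div_eq_mul_inv, div_lt_one h5] at h4

theorem thm : G_CUP → G_DECCNT → G_DECEX → G_PIG := by
  classical
  intro hCUP hDC hDE α _ L h Q good cls hh hRate hgN hN0 ε hε M ℓ0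
  by_contra hcon
  push Not at hcon
  set Loop : ℕ → Fin Q → (ℕ → α) → Prop := fun ℓ c v => ∃ (N : ℕ) (W : ℕ → α) (t : ℕ),
      L.P N W ∧ t ∈ good N W ∧
      t + ℓ ∈ good N W ∧ cls N W t = c ∧ cls N W (t + ℓ) = c ∧
      (∃ F : Finset ℕ, F ⊆ good N W ∧ M ≤ F.card ∧ ∀ s ∈ F, t < s ∧ s < t + ℓ) ∧
      ∀ k ≤ ℓ, v k = W (t + k) with hLoop
  have hcon' : ∀ ℓ ≥ ℓ0, ∀ c : Fin Q, (cnt ℓ (Loop ℓ c) : ℝ) < Real.exp ((h - ε) * ℓ) := by
    intro ℓ hℓ c
    exact hcon ℓ hℓ c
  set Rh : ℕ → (ℕ → α) → Prop := fun ℓ v => ℓ0 ≤ ℓ ∧ ∃ c, Loop ℓ c v with hRh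
  have hRcnt : ∀ ℓ : ℕ, (cnt ℓ (Rh ℓ) : ℝ) ≤ ((Q : ℝ) + 1) * Real.exp ((h - ε) * ℓ) := by
    intro ℓ
    rcases Nat.lt_or_ge ℓ ℓ0 with hl | hl
    · have h1 : cnt ℓ (Rh ℓ) = 0 := by
        have h2 : {w | Rh ℓ w} = (∅ : Set (ℕ → α)) := by
          ext w
          simp only [hRh, mem_empty_iff_false, iff_false]
          rintro ⟨h3, _⟩
          omega
        unfold cnt
        rw [h2, image_empty, ncard_empty]
      rw [h1]
      have := Real.exp_pos ((h - ε) * ℓ)
      push_cast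
      positivity
    · have h1 := hCUP α (Fin Q) ℓ Finset.univ (Loop ℓ) (Rh ℓ)
        (fun w hw => by obtain ⟨_, c, hc⟩ := hw; exact ⟨c, Finset.mem_univ _, hc⟩)
      have h2 : (cnt ℓ (Rh ℓ) : ℝ) ≤ ∑ c : Fin Q, (cnt ℓ (Loop ℓ c) : ℝ) := by exact_mod_cast h1
      refine h2.trans ?_
      have h3 : ∑ c : Fin Q, (cnt ℓ (Loop ℓ c) : ℝ) ≤ ∑ c : Fin Q, Real.exp ((h - ε) * ℓ) :=
        Finset.sum_le_sum fun c _ => (hcon' ℓ hl c).le
      refine h3.trans ?_
      rw [Finset.sum_const, Finset.card_univ, Fintype.card_fin, nsmul_eq_mul]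
      have := Real.exp_pos ((h - ε) * ℓ)
      nlinarith
  obtain ⟨N0, hN0⟩ := hN0
  obtain ⟨hA, hU⟩ := hRate
  obtain ⟨K, hK1, hK⟩ := hU (ε / 2) (by linarith)
  set C : ℕ := ℓ0 + M + 2 with hC
  set C1 : ℕ := Q * (C + 1) with hC1
  have hdec : ∀ N : ℕ, ∀ W, (L.P N W ∧ 7 * N ≤ 8 * (good N W).card) →
      ∃ x ∈ (Finset.range (Q + 1)) ×ˢ ((Finset.range (N + 1)).filter
        (fun R => 7 * N ≤ 8 * (R + C1))), Dec L.P Rh x.1 N x.2 W := by
    intro N W hW
    obtain ⟨q, R, hq, hR, hcard, hD⟩ := hDE α L Rh N W C Q (fun t => (cls N W t : ℕ)) (good N W) 0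
      hW.1 (Nat.zero_le _) (fun t ht => ⟨Nat.zero_le _, hgN N W t ht⟩)
      (by
        have h1 : (good N W).image (fun t => (cls N W t : ℕ)) ⊆ Finset.range Q := by
          intro x hx
          rw [Finset.mem_image] at hx
          obtain ⟨t, _, rfl⟩ := hx
          exact Finset.mem_range.mpr (cls N W t).isLt
        exact (Finset.card_le_card h1).trans (by simp))
      (by
        intro t ht t' ht' htt' hcl
        by_cases h1 : ℓ0 ≤ t' - t ∧
            M ≤ ((good N W).filter (fun x => t < x ∧ x < t')).card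
        · left
          have e1 : t + (t' - t) = t' := by omega
          refine ⟨h1.1, cls N W t, N, W, t, hW.1, ht, by rw [e1]; exact ht', rfl, ?_, ?_,
            fun k _ => rfl⟩
          · rw [e1]; exact (Fin.ext hcl).symm
          · refine ⟨(good N W).filter (fun x => t < x ∧ x < t'), Finset.filter_subset _ _, h1.2, ?_⟩
            intro s hs
            rw [Finset.mem_filter] at hs
            rw [e1]; exact hs.2
        · right
          rw [not_and_or, not_le, not_le] at h1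
          rcases h1 with h1 | h1
          · have h2 : (good N W).filter (fun x => t ≤ x ∧ x ≤ t') ⊆ Finset.Icc t t' := by
              intro x hx
              rw [Finset.mem_filter] at hx
              exact Finset.mem_Icc.mpr hx.2
            have h3 := Finset.card_le_card h2
            rw [Nat.card_Icc] at h3
            omega
          · have h2 : (good N W).filter (fun x => t ≤ x ∧ x ≤ t') ⊆
                insert t (insert t' ((good N W).filter (fun x => t < x ∧ x < t'))) := by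
              intro x hx
              rw [Finset.mem_filter] at hx
              rw [Finset.mem_insert, Finset.mem_insert, Finset.mem_filter]
              rcases Nat.eq_or_lt_of_le hx.2.1 with h3 | h3
              · left; exact h3.symm
              · rcases Nat.eq_or_lt_of_le hx.2.2 with h4 | h4
                · right; left; exact h4
                · right; right; exact ⟨hx.1, h3, h4⟩
            have h3 := Finset.card_le_card h2
            have h4 := Finset.card_insert_le t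
              (insert t' ((good N W).filter (fun x => t < x ∧ x < t')))
            have h5 := Finset.card_insert_le t' ((good N W).filter (fun x => t < x ∧ x < t'))
            omega)
    refine ⟨(q, R), ?_, ?_⟩
    · rw [Finset.mem_product, Finset.mem_filter, Finset.mem_range, Finset.mem_range]
      refine ⟨by simp only; omega, by simp only; omega, ?_⟩
      have := hW.2
      simp only
      omega
    · have e1 : sh 0 W = W := by funext k; simp [sh]
      rw [e1, Nat.sub_zero] at hD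
      exact hD
  -- the final estimate
  set Cst : ℝ := 2 * ((Q : ℝ) + 1) * K ^ (Q + 1) * ((Q : ℝ) + 1) ^ Q *
    Real.exp (3 * ε / 2 * C1) with hCst
  have hKpos : 0 < K := by linarith
  have hbound : ∀ N ≥ N0, Real.exp (13 * ε / 16 * N) ≤ Cst * ((N : ℝ) + 1) ^ (2 * Q + 1) := by
    intro N hN
    have h1 : (L.A N : ℝ) ≤ 2 * cnt N (fun W => L.P N W ∧ 7 * N ≤ 8 * (good N W).card) := by
      exact_mod_cast hN0 N hN
    have h2 := hCUP α (ℕ × ℕ) N ((Finset.range (Q + 1)) ×ˢ ((Finset.range (N + 1)).filter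
        (fun R => 7 * N ≤ 8 * (R + C1)))) (fun x => Dec L.P Rh x.1 N x.2)
        (fun W => L.P N W ∧ 7 * N ≤ 8 * (good N W).card) (hdec N)
    set s := ((Finset.range (Q + 1)) ×ˢ ((Finset.range (N + 1)).filter
        (fun R => 7 * N ≤ 8 * (R + C1)))) with hs
    have h2' : (cnt N (fun W => L.P N W ∧ 7 * N ≤ 8 * (good N W).card) : ℝ) ≤
        ∑ x ∈ s, (cnt N (Dec L.P Rh x.1 N x.2) : ℝ) := by exact_mod_cast h2
    set B : ℝ := (((N : ℝ) + 1) ^ 2) ^ Q * K ^ (Q + 1) * ((Q : ℝ) + 1) ^ Q *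
      (Real.exp (h * N) * Real.exp (-(13 * ε / 16 * N)) * Real.exp (3 * ε / 2 * C1)) with hB
    have hNpos : (1 : ℝ) ≤ ((N : ℝ) + 1) ^ 2 := by
      have : (0 : ℝ) ≤ N := Nat.cast_nonneg _
      nlinarith
    have hQ1 : (1 : ℝ) ≤ (Q : ℝ) + 1 := by
      have : (0 : ℝ) ≤ Q := Nat.cast_nonneg _
      linarith
    have h3 : ∀ x ∈ s, (cnt N (Dec L.P Rh x.1 N x.2) : ℝ) ≤ B := by
      intro x hx
      rw [hs, Finset.mem_product, Finset.mem_filter, Finset.mem_range, Finset.mem_range] at hx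
      obtain ⟨hx1, hx2, hx3⟩ := hx
      have h4 := hDC α L Rh h (ε / 2) ε K ((Q : ℝ) + 1) (by linarith) hK1 hQ1 hK hRcnt x.1 N x.2
      refine h4.trans ?_
      have hq : x.1 ≤ Q := by omega
      have e1 : (((N : ℝ) + 1) ^ 2) ^ x.1 ≤ (((N : ℝ) + 1) ^ 2) ^ Q := pow_le_pow_right₀ hNpos hq
      have e2 : K ^ (x.1 + 1) ≤ K ^ (Q + 1) := pow_le_pow_right₀ hK1 (by omega)
      have e3 : ((Q : ℝ) + 1) ^ x.1 ≤ ((Q : ℝ) + 1) ^ Q := pow_le_pow_right₀ hQ1 hq
      have e4 : Real.exp ((h + ε / 2) * (N - x.2) + (h - ε) * x.2) ≤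
          Real.exp (h * N) * Real.exp (-(13 * ε / 16 * N)) * Real.exp (3 * ε / 2 * C1) := by
        rw [← Real.exp_add, ← Real.exp_add]
        apply Real.exp_le_exp.mpr
        have h5 : (7 : ℝ) * N ≤ 8 * (x.2 + C1) := by exact_mod_cast hx3
        nlinarith
      rw [hB]
      have p1 : (0 : ℝ) ≤ (((N : ℝ) + 1) ^ 2) ^ x.1 := by positivity
      have p2 : (0 : ℝ) ≤ K ^ (x.1 + 1) := by positivity
      have p3 : (0 : ℝ) ≤ ((Q : ℝ) + 1) ^ x.1 := by positivity
      exact mul_le_mul (mul_le_mul (mul_le_mul e1 e2 p2 (by positivity)) e3 p3 (by positivity)) e4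
        (Real.exp_pos _).le (by positivity)
    have h4 : ∑ x ∈ s, (cnt N (Dec L.P Rh x.1 N x.2) : ℝ) ≤ s.card * B := by
      have := Finset.sum_le_card_nsmul s _ B h3
      rwa [nsmul_eq_mul] at this
    have h5 : (s.card : ℝ) ≤ ((Q : ℝ) + 1) * ((N : ℝ) + 1) := by
      have h6 : s.card ≤ (Q + 1) * (N + 1) := by
        rw [hs, Finset.card_product, Finset.card_range]
        exact Nat.mul_le_mul_left _ ((Finset.card_filter_le _ _).trans (by simp))
      exact_mod_cast h6
    have hBpos : 0 ≤ B := by positivity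
    have h6 : Real.exp (h * N) ≤ 2 * (((Q : ℝ) + 1) * ((N : ℝ) + 1) * B) := by
      have h7 := hA N
      have h8 := mul_le_mul_of_nonneg_right h5 hBpos
      linarith
    have h7 : 2 * (((Q : ℝ) + 1) * ((N : ℝ) + 1) * B) =
        Real.exp (h * N) * (Real.exp (-(13 * ε / 16 * N)) *
          (Cst * ((N : ℝ) + 1) ^ (2 * Q + 1))) := by
      rw [hB, hCst, ← pow_mul, pow_succ ((N : ℝ) + 1) (2 * Q)]; ring
    rw [h7] at h6
    have h8 : 1 ≤ Real.exp (-(13 * ε / 16 * N)) * (Cst * ((N : ℝ) + 1) ^ (2 * Q + 1)) := by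
      have h9 := Real.exp_pos (h * N)
      by_contra hc
      push Not at hc
      have := mul_lt_mul_of_pos_left hc h9
      linarith
    rw [Real.exp_neg] at h8
    have h9 := Real.exp_pos (13 * ε / 16 * N)
    rwa [← div_eq_inv_mul, le_div_iff₀ h9, one_mul] at h8
  obtain ⟨N, hN, hlt⟩ := growth (13 * ε / 16) Cst (by linarith) (2 * Q + 1) N0
  exact absurd (hbound N hN) (not_le.mpr hlt)

end Pool.Agent.Helper42.DB.PkPIG
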